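import Mathlib

/-! Constructive modal logics with box and diamond (problem `MP_1f55c7_lc`). -/

namespace Pool.Agent.Q297.CKF

/-- Formulas. -/
inductive Form : Type
  | var (n : ℕ) : Form
  | bot : Form
  | and (φ ψ : Form) : Form
  | or (φ ψ : Form) : Form
  | imp (φ ψ : Form) : Form
  | box (φ : Form) : Form
  | dia (φ : Form) : Form
  deriving DecidableEq

namespace Form

/-- Negation `φ → ⊥`. -/
def neg (φ : Form) : Form := .imp φ .bot

/-- Uniform substitution. -/
def subst (σ : ℕ → Form) : Form → Form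
  | .var n => σ n
  | .bot => .bot
  | .and φ ψ => .and (subst σ φ) (subst σ ψ)
  | .or φ ψ => .or (subst σ φ) (subst σ ψ)
  | .imp φ ψ => .imp (subst σ φ) (subst σ ψ)
  | .box φ => .box (subst σ φ)
  | .dia φ => .dia (subst σ φ)

/-- Formulas without diamond. -/
def DiaFree : Form → Prop
  | .var _ => True
  | .bot => True
  | .and φ ψ => DiaFree φ ∧ DiaFree ψ
  | .or φ ψ => DiaFree φ ∧ DiaFree ψ
  | .imp φ ψ => DiaFree φ ∧ DiaFree ψ
  | .box φ => DiaFree φ
  | .dia _ => False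

end Form

open Form

/-- `Der A` is the logic `CK_□ ⊕ A`: the least set of formulas containing the axioms of
intuitionistic propositional logic, the axiom `K_□` and the formulas in `A`, and closed under modus
ponens, necessitation and uniform substitution. -/
inductive Der (A : Set Form) : Form → Prop
  | k (φ ψ : Form) : Der A (imp φ (imp ψ φ))
  | s (φ ψ χ : Form) : Der A (imp (imp φ (imp ψ χ)) (imp (imp φ ψ) (imp φ χ)))
  | andI (φ ψ : Form) : Der A (imp φ (imp ψ (and φ ψ)))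
  | andL (φ ψ : Form) : Der A (imp (and φ ψ) φ)
  | andR (φ ψ : Form) : Der A (imp (and φ ψ) ψ)
  | orL (φ ψ : Form) : Der A (imp φ (or φ ψ))
  | orR (φ ψ : Form) : Der A (imp ψ (or φ ψ))
  | orE (φ ψ χ : Form) : Der A (imp (imp φ χ) (imp (imp ψ χ) (imp (or φ ψ) χ)))
  | efq (φ : Form) : Der A (imp bot φ)
  | kBox (φ ψ : Form) : Der A (imp (box (imp φ ψ)) (imp (box φ) (box ψ)))
  | ax {φ : Form} (h : φ ∈ A) : Der A φ
  | subst (σ : ℕ → Form) {φ : Form} (h : Der A φ) : Der A (φ.subst σ)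
  | mp {φ ψ : Form} (h₁ : Der A (imp φ ψ)) (h₂ : Der A φ) : Der A ψ
  | nec {φ : Form} (h : Der A φ) : Der A (box φ)

/-- `K_◇`: `□(p → q) → (◇p → ◇q)`. -/
def KDia : Form := imp (box (imp (var 0) (var 1))) (imp (dia (var 0)) (dia (var 1)))

/-- `N_◇`: `◇⊥ → ⊥`. -/
def NDia : Form := imp (dia bot) bot

/-- `C_◇`: `◇(p ∨ q) → ◇p ∨ ◇q`. -/
def CDia : Form := imp (dia (or (var 0) (var 1))) (or (dia (var 0)) (dia (var 1)))

/-- `wCD`: `□(p ∨ q) → ((◇p → □q) → □q)`. -/
def wCD : Form :=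
  imp (box (or (var 0) (var 1))) (imp (imp (dia (var 0)) (box (var 1))) (box (var 1)))

/-- `L₁ = CK ⊕ N_◇ ⊕ wCD`. -/
def L₁ : Set Form := {φ | Der {KDia, NDia, wCD} φ}

/-- `L₂ = L₁ ⊕ C_◇`. -/
def L₂ : Set Form := {φ | Der {KDia, NDia, wCD, CDia} φ}

/-- The diamond-free fragment of a set of formulas. -/
def frag (L : Set Form) : Set Form := {φ | φ.DiaFree ∧ φ ∈ L}

/-- A set `F` of formulas is finitely axiomatisable: it is the set of diamond-free theorems of
`CK_□ ⊕ X` for some finite set `X` of diamond-free formulas. -/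
def FinAx (F : Set Form) : Prop :=
  ∃ X : Finset Form, (∀ χ ∈ X, χ.DiaFree) ∧ F = {φ | φ.DiaFree ∧ Der (X : Set Form) φ}

end Pool.Agent.Q297.CKF
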