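import Pool.Agent.Q297.CKF.Defs

/-! The diamond-free fragments of `L₁` and `L₂`. -/

namespace Pool.Agent.Q297.CKF

open Form

/-! ### Derivations -/

section Deriv

variable {A : Set Form}

theorem Der.mono {B : Set Form} (hAB : A ⊆ B) {φ : Form} (h : Der A φ) : Der B φ := by
  induction h with
  | k φ ψ => exact .k φ ψ
  | s φ ψ χ => exact .s φ ψ χ
  | andI φ ψ => exact .andI φ ψ
  | andL φ ψ => exact .andL φ ψ
  | andR φ ψ => exact .andR φ ψ
  | orL φ ψ => exact .orL φ ψ
  | orR φ ψ => exact .orR φ ψ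
  | orE φ ψ χ => exact .orE φ ψ χ
  | efq φ => exact .efq φ
  | kBox φ ψ => exact .kBox φ ψ
  | ax h => exact .ax (hAB h)
  | subst σ _ ih => exact .subst σ ih
  | mp _ _ ih₁ ih₂ => exact .mp ih₁ ih₂
  | nec _ ih => exact .nec ih

theorem Der.weak {φ : Form} (ψ : Form) (h : Der A φ) : Der A (imp ψ φ) := .mp (.k φ ψ) h

theorem Der.tr {φ ψ χ : Form} (h₁ : Der A (imp φ ψ)) (h₂ : Der A (imp ψ χ)) :
    Der A (imp φ χ) := .mp (.mp (.s φ ψ χ) (h₂.weak φ)) h₁

theorem Der.id (φ : Form) : Der A (imp φ φ) :=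
  .mp (.mp (.s φ (imp φ φ) φ) (.k φ (imp φ φ))) (.k φ φ)

/-- `(ψ → χ) → ((φ → ψ) → (φ → χ))` -/
theorem Der.b (φ ψ χ : Form) : Der A (imp (imp ψ χ) (imp (imp φ ψ) (imp φ χ))) :=
  Der.tr (.k (imp ψ χ) φ) (.s φ ψ χ)

theorem Der.flip {φ ψ χ : Form} (h : Der A (imp φ (imp ψ χ))) : Der A (imp ψ (imp φ χ)) :=
  Der.tr (.k ψ φ) (.mp (.s φ ψ χ) h)

/-- `(φ → ψ) → ((ψ → χ) → (φ → χ))` -/
theorem Der.b' (φ ψ χ : Form) : Der A (imp (imp φ ψ) (imp (imp ψ χ) (imp φ χ))) :=
  Der.flip (.b φ ψ χ)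

theorem Der.tr₂ {φ ψ χ χ' : Form} (h₁ : Der A (imp φ (imp ψ χ))) (h₂ : Der A (imp χ χ')) :
    Der A (imp φ (imp ψ χ')) := Der.tr h₁ (.mp (.b ψ χ χ') h₂)

theorem Der.or_map {φ ψ φ' ψ' : Form} (h₁ : Der A (imp φ φ')) (h₂ : Der A (imp ψ ψ')) :
    Der A (imp (or φ ψ) (or φ' ψ')) :=
  .mp (.mp (.orE φ ψ _) (h₁.tr (.orL _ _))) (h₂.tr (.orR _ _))

/-- substitution of two variables -/
def sub2 (φ ψ : Form) : ℕ → Form := fun n => if n = 0 then φ else ψ

theorem Der.kDia (h : KDia ∈ A) (φ ψ : Form) :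
    Der A (imp (box (imp φ ψ)) (imp (dia φ) (dia ψ))) :=
  Der.subst (sub2 φ ψ) (.ax h)

theorem Der.cDia (h : CDia ∈ A) (φ ψ : Form) :
    Der A (imp (dia (or φ ψ)) (or (dia φ) (dia ψ))) :=
  Der.subst (sub2 φ ψ) (.ax h)

theorem Der.wcd (h : wCD ∈ A) (φ ψ : Form) :
    Der A (imp (box (or φ ψ)) (imp (imp (dia φ) (box ψ)) (box ψ))) :=
  Der.subst (sub2 φ ψ) (.ax h)

/-- `◇φ → ¬□¬φ` -/
theorem Der.dia_nbn (hK : KDia ∈ A) (hN : NDia ∈ A) (φ : Form) :
    Der A (imp (dia φ) (neg (box (neg φ)))) :=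
  Der.flip (Der.tr₂ (Der.kDia hK φ bot) (.ax hN))

theorem Der.wcd' (h : wCD ∈ A) {φ θ : Form} (hθ : Der A (imp (dia φ) θ)) (ψ : Form) :
    Der A (imp (box (or φ ψ)) (imp (imp θ (box ψ)) (box ψ))) := by
  have h₁ : Der A (imp (imp θ (box ψ)) (imp (dia φ) (box ψ))) := .mp (.b' _ _ _) hθ
  exact Der.flip (Der.tr h₁ (Der.flip (Der.wcd h φ ψ)))

end Deriv

/-! ### The fragment of `L₁` -/

/-- `□(p ∨ q) → ((¬□¬p → □q) → □q)` -/
def chi : Form :=
  imp (box (or (var 0) (var 1)))
    (imp (imp (neg (box (neg (var 0)))) (box (var 1))) (box (var 1)))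

theorem chi_mem {A : Set Form} (hK : KDia ∈ A) (hN : NDia ∈ A) (h : wCD ∈ A) : Der A chi :=
  Der.wcd' h (Der.dia_nbn hK hN (var 0)) (var 1)

/-- Replace every `◇` by `¬□¬`. -/
def trl : Form → Form
  | .var n => .var n
  | .bot => .bot
  | .and φ ψ => .and (trl φ) (trl ψ)
  | .or φ ψ => .or (trl φ) (trl ψ)
  | .imp φ ψ => .imp (trl φ) (trl ψ)
  | .box φ => .box (trl φ)
  | .dia φ => neg (box (neg (trl φ)))

theorem trl_of_diaFree {φ : Form} (h : φ.DiaFree) : trl φ = φ := by
  induction φ with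
  | var n => rfl
  | bot => rfl
  | and φ ψ ih₁ ih₂ => simp only [trl, ih₁ h.1, ih₂ h.2]
  | or φ ψ ih₁ ih₂ => simp only [trl, ih₁ h.1, ih₂ h.2]
  | imp φ ψ ih₁ ih₂ => simp only [trl, ih₁ h.1, ih₂ h.2]
  | box φ ih => simp only [trl, ih h]
  | dia φ _ => exact h.elim

theorem trl_subst (σ : ℕ → Form) (φ : Form) :
    trl (φ.subst σ) = (trl φ).subst (fun n => trl (σ n)) := by
  induction φ with
  | var n => rfl
  | bot => rfl
  | and φ ψ ih₁ ih₂ => simp only [trl, Form.subst, ih₁, ih₂]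
  | or φ ψ ih₁ ih₂ => simp only [trl, Form.subst, ih₁, ih₂]
  | imp φ ψ ih₁ ih₂ => simp only [trl, Form.subst, ih₁, ih₂]
  | box φ ih => simp only [trl, Form.subst, ih]
  | dia φ ih => simp only [trl, Form.subst, ih, neg]

theorem der_trl {φ : Form} (h : Der {KDia, NDia, wCD} φ) : Der {chi} (trl φ) := by
  induction h with
  | k φ ψ => exact .k _ _
  | s φ ψ χ => exact .s _ _ _
  | andI φ ψ => exact .andI _ _
  | andL φ ψ => exact .andL _ _
  | andR φ ψ => exact .andR _ _
  | orL φ ψ => exact .orL _ _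
  | orR φ ψ => exact .orR _ _
  | orE φ ψ χ => exact .orE _ _ _
  | efq φ => exact .efq _
  | kBox φ ψ => exact .kBox _ _
  | ax h =>
    rcases h with rfl | rfl | rfl
    · have h₁ : Der {chi} (imp (box (imp (var 0) (var 1)))
          (box (imp (neg (var 1)) (neg (var 0))))) :=
        .mp (.kBox _ _) (.nec (.b' (var 0) (var 1) bot))
      have h₂ : Der {chi} (imp (box (imp (var 0) (var 1)))
          (imp (box (neg (var 1))) (box (neg (var 0))))) := h₁.tr (.kBox _ _)
      exact h₂.tr (.b' _ _ _)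
    · have h₁ : Der {chi} (box (neg bot)) := .nec (.id bot)
      exact .mp (Der.flip (.id (imp (box (neg bot)) bot))) h₁
    · exact .ax rfl
  | subst σ _ ih => rw [trl_subst]; exact .subst _ ih
  | mp _ _ ih₁ ih₂ => exact .mp ih₁ ih₂
  | nec _ ih => exact .nec ih

theorem frag_L₁ : frag L₁ = {φ | φ.DiaFree ∧ Der {chi} φ} := by
  ext φ
  constructor
  · rintro ⟨h, h'⟩
    refine ⟨h, ?_⟩
    rw [← trl_of_diaFree h]
    exact der_trl h'
  · rintro ⟨h, h'⟩
    refine ⟨h, ?_⟩
    have hchi : Der {KDia, NDia, wCD} chi := chi_mem (by simp) (by simp) (by simp)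
    have key : ∀ ψ, Der {chi} ψ → Der {KDia, NDia, wCD} ψ := by
      intro ψ hψ
      induction hψ with
      | k φ ψ => exact .k φ ψ
      | s φ ψ χ => exact .s φ ψ χ
      | andI φ ψ => exact .andI φ ψ
      | andL φ ψ => exact .andL φ ψ
      | andR φ ψ => exact .andR φ ψ
      | orL φ ψ => exact .orL φ ψ
      | orR φ ψ => exact .orR φ ψ
      | orE φ ψ χ => exact .orE φ ψ χ
      | efq φ => exact .efq φ
      | kBox φ ψ => exact .kBox φ ψ
      | ax h => rw [Set.mem_singleton_iff.1 h]; exact hchi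
      | subst σ _ ih => exact .subst σ ih
      | mp _ _ ih₁ ih₂ => exact .mp ih₁ ih₂
      | nec _ ih => exact .nec ih
    exact key φ h'

theorem chi_diaFree : chi.DiaFree := by
  simp [chi, DiaFree, neg]

theorem finAx_L₁ : FinAx (frag L₁) := by
  refine ⟨{chi}, ?_, ?_⟩
  · intro χ hχ
    rw [Finset.mem_singleton.1 hχ]
    exact chi_diaFree
  · rw [frag_L₁]; simp

/-! ### Semantics -/

section Sem

variable {W : Type}

/-- Truth: `le` interprets implication, `S` the box, `R` the diamond. -/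
def Sat (le S R : W → W → Prop) (V : ℕ → W → Prop) : Form → W → Prop
  | .var n, w => V n w
  | .bot, _ => False
  | .and φ ψ, w => Sat le S R V φ w ∧ Sat le S R V ψ w
  | .or φ ψ, w => Sat le S R V φ w ∨ Sat le S R V ψ w
  | .imp φ ψ, w => ∀ v, le w v → Sat le S R V φ v → Sat le S R V ψ v
  | .box φ, w => ∀ v, S w v → Sat le S R V φ v
  | .dia φ, w => ∃ v, R w v ∧ Sat le S R V φ v

/-- The conditions on frames. -/
structure Fr (le S R : W → W → Prop) : Prop where
  refl : ∀ w, le w w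
  trans : ∀ u v w, le u v → le v w → le u w
  anti : ∀ w w' y, le w w' → S w' y → S w y
  forth : ∀ w w' y, le w w' → R w y → ∃ y', le y y' ∧ R w' y'

/-- Monotone valuations. -/
def MonoV (le : W → W → Prop) (V : ℕ → W → Prop) : Prop := ∀ n w w', le w w' → V n w → V n w'

variable {le S R : W → W → Prop}

theorem persist (hF : Fr le S R) {V : ℕ → W → Prop} (hV : MonoV le V) (φ : Form) :
    ∀ w w', le w w' → Sat le S R V φ w → Sat le S R V φ w' := by
  induction φ with
  | var n => intro w w' h h'; exact hV n w w' h h'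
  | bot => intro w w' _ h'; exact h'
  | and φ ψ ih₁ ih₂ => intro w w' h h'; exact ⟨ih₁ _ _ h h'.1, ih₂ _ _ h h'.2⟩
  | or φ ψ ih₁ ih₂ => intro w w' h h'; exact h'.imp (ih₁ _ _ h) (ih₂ _ _ h)
  | imp φ ψ _ _ => intro w w' h h' v hv; exact h' v (hF.trans _ _ _ h hv)
  | box φ _ => intro w w' h h' v hv; exact h' v (hF.anti _ _ _ h hv)
  | dia φ ih =>
    rintro w w' h ⟨y, hy, hs⟩
    obtain ⟨y', h₁, h₂⟩ := hF.forth _ _ _ h hy
    exact ⟨y', h₂, ih _ _ h₁ hs⟩

theorem sat_subst (V : ℕ → W → Prop) (σ : ℕ → Form) (φ : Form) :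
    ∀ w, Sat le S R V (φ.subst σ) w ↔ Sat le S R (fun n w => Sat le S R V (σ n) w) φ w := by
  induction φ with
  | var n => intro w; rfl
  | bot => intro w; rfl
  | and φ ψ ih₁ ih₂ => intro w; simp only [Form.subst, Sat, ih₁, ih₂]
  | or φ ψ ih₁ ih₂ => intro w; simp only [Form.subst, Sat, ih₁, ih₂]
  | imp φ ψ ih₁ ih₂ => intro w; simp only [Form.subst, Sat, ih₁, ih₂]
  | box φ ih => intro w; simp only [Form.subst, Sat, ih]
  | dia φ ih => intro w; simp only [Form.subst, Sat, ih]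

/-- Validity on a frame. -/
def Val (le S R : W → W → Prop) (φ : Form) : Prop :=
  ∀ V, MonoV le V → ∀ w, Sat le S R V φ w

theorem sound (hF : Fr le S R) {A : Set Form} (hA : ∀ φ ∈ A, Val le S R φ) {φ : Form}
    (h : Der A φ) : Val le S R φ := by
  induction h with
  | k φ ψ =>
    intro V hV w v _ h₁ v' h₂ _
    exact persist hF hV φ _ _ h₂ h₁
  | s φ ψ χ =>
    intro V hV w a _ h₁ b hab h₂ c hbc h₃
    exact h₁ c (hF.trans _ _ _ hab hbc) h₃ c (hF.refl c) (h₂ c hbc h₃)
  | andI φ ψ =>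
    intro V hV w v _ h₁ v' h₂ h₃
    exact ⟨persist hF hV φ _ _ h₂ h₁, h₃⟩
  | andL φ ψ => intro V hV w v _ h; exact h.1
  | andR φ ψ => intro V hV w v _ h; exact h.2
  | orL φ ψ => intro V hV w v _ h; exact Or.inl h
  | orR φ ψ => intro V hV w v _ h; exact Or.inr h
  | orE φ ψ χ =>
    intro V hV w a _ h₁ b hab h₂ c hbc h₃
    rcases h₃ with h₃ | h₃
    · exact h₁ c (hF.trans _ _ _ hab hbc) h₃
    · exact h₂ c hbc h₃
  | efq φ => intro V hV w v _ h; exact h.elim
  | kBox φ ψ =>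
    intro V hV w a _ h₁ b hab h₂ y hy
    exact h₁ y (hF.anti _ _ _ hab hy) y (hF.refl y) (h₂ y hy)
  | ax h => exact hA _ h
  | subst σ _ ih =>
    intro V hV w
    rw [sat_subst]
    exact ih _ (fun n w w' h h' => persist hF hV (σ n) w w' h h') w
  | mp _ _ ih₁ ih₂ => intro V hV w; exact ih₁ V hV w w (hF.refl w) (ih₂ V hV w)
  | nec _ ih => intro V hV w y _; exact ih V hV y

/-- The frames of `L₂`. -/
structure Fr₂ (le S R : W → W → Prop) : Prop extends Fr le S R where
  sub : ∀ w y, R w y → S w y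
  wit : ∀ w y, S w y → ∃ w' y', le w w' ∧ le y' y ∧ R w' y'

theorem sound₂ (hF : Fr₂ le S R) {φ : Form} (h : φ ∈ L₂) : Val le S R φ := by
  refine sound hF.toFr ?_ h
  intro φ hφ V hV
  rcases hφ with rfl | rfl | rfl | rfl
  · rintro w a _ h₁ b hab ⟨y, hy, hs⟩
    exact ⟨y, hy, h₁ y (hF.anti _ _ _ hab (hF.sub _ _ hy)) y (hF.refl y) hs⟩
  · rintro w a _ ⟨y, _, hs⟩
    exact hs
  · intro w a _ h₁ b hab h₂ y hy
    obtain ⟨b', y', hb, hy', hR⟩ := hF.wit b y hy
    have hS : S b' y' := hF.sub _ _ hR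
    have hS' : S a y' := hF.anti _ _ _ (hF.trans _ _ _ hab hb) hS
    rcases h₁ y' hS' with h | h
    · exact hV 1 _ _ hy' (h₂ b' hb ⟨y', hR, h⟩ y' hS)
    · exact hV 1 _ _ hy' h
  · rintro w a _ ⟨y, hy, hs⟩
    rcases hs with hs | hs
    · exact Or.inl ⟨y, hy, hs⟩
    · exact Or.inr ⟨y, hy, hs⟩

end Sem

/-! ### The comb frames -/

/-- The worlds: two kinds of sources and two kinds of targets. -/
inductive Wd : Type
  | x (k : ℕ) : Wd
  | m (k : ℕ) : Wd
  | z (k : ℕ) : Wd
  | u (k : ℕ) : Wd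

/-- The order. -/
def Wd.le : Wd → Wd → Prop
  | .x k, .x l => k ≤ l
  | .x k, .m l => k ≤ l + 1
  | .m k, .m l => k = l
  | .z k, .z l => k ≤ l
  | .z k, .u l => k ≤ l
  | .u k, .u l => k = l
  | _, _ => False

/-- The relation for the box in the `n`-th frame. -/
def Wd.S (n : ℕ) : Wd → Wd → Prop
  | .x k, .z j => k ≤ j ∧ j ≤ n
  | .x _, .u j => j < n
  | .m l, .z j => l + 1 ≤ j ∧ j ≤ n
  | .m l, .u j => j < n ∧ j ≠ l
  | _, _ => False

/-- The relation for the diamond after deletion of `x (k+1)`. -/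
def Wd.R (n k : ℕ) : Wd → Wd → Prop
  | .x i, .z j => i ≤ j ∧ j ≤ k
  | .x i, .u j => j + 2 ≤ i ∧ j < n
  | .m l, .z j => l + 1 ≤ j ∧ j ≤ n
  | .m l, .u j => j < n ∧ j ≠ l
  | _, _ => False

theorem Wd.le_refl (w : Wd) : w.le w := by cases w <;> simp [Wd.le]

theorem Wd.le_trans (a b c : Wd) (h₁ : a.le b) (h₂ : b.le c) : a.le c := by
  cases a <;> cases b <;> cases c <;> simp only [Wd.le] at * <;> omega

theorem Wd.anti (n : ℕ) (a b y : Wd) (h₁ : a.le b) (h₂ : Wd.S n b y) : Wd.S n a y := by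
  cases a <;> cases b <;> cases y <;> simp only [Wd.le, Wd.S] at * <;> omega

/-- The frame `F n` (the diamond is interpreted by the empty relation). -/
theorem fr_comb (n : ℕ) : Fr Wd.le (Wd.S n) (fun _ _ => False) :=
  ⟨Wd.le_refl, Wd.le_trans, Wd.anti n, fun _ _ _ _ h => h.elim⟩

/-- The formulas `a_k` and `b_k`. -/
def fa (k : ℕ) : Form := var (2 * k)

@[inherit_doc fa]
def fb (k : ℕ) : Form := var (2 * k + 3)

/-- The formula `q`. -/
def fq : Form := var 1

/-- The nested consequences of `◇ a_k`. -/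
def Th : ℕ → ℕ → Form
  | 0, k => neg (box (neg (fa k)))
  | j + 1, k => imp (box (imp (fa k) (or (fa (k + 1)) (fb k))))
      (or (Th j (k + 1)) (neg (box (neg (fb k)))))

/-- The formulas which separate `L₂` from finitely axiomatised logics. -/
def psi (n : ℕ) : Form := imp (box (or (fa 0) fq)) (imp (imp (Th n 0) (box fq)) (box fq))

theorem der_Th {A : Set Form} (hK : KDia ∈ A) (hN : NDia ∈ A) (hC : CDia ∈ A) (j : ℕ) :
    ∀ k, Der A (imp (dia (fa k)) (Th j k)) := by
  induction j with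
  | zero => intro k; exact Der.dia_nbn hK hN _
  | succ j ih =>
    intro k
    refine Der.flip (Der.tr₂ (Der.kDia hK _ _) ?_)
    exact (Der.cDia hC _ _).tr (Der.or_map (ih (k + 1)) (Der.dia_nbn hK hN _))

theorem psi_mem (n : ℕ) : psi n ∈ L₂ :=
  Der.wcd' (by simp) (der_Th (by simp) (by simp) (by simp) n 0) fq

theorem Th_diaFree (j : ℕ) : ∀ k, (Th j k).DiaFree := by
  induction j with
  | zero => intro k; simp [Th, neg, DiaFree, fa]
  | succ j ih => intro k; simp [Th, neg, DiaFree, fa, fb, ih]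

theorem psi_diaFree (n : ℕ) : (psi n).DiaFree := by
  simp [psi, DiaFree, Th_diaFree, fa, fq]

/-- The refuting valuation. -/
def rv (i : ℕ) : Wd → Prop
  | .z j => if i % 2 = 0 then i ≤ 2 * j else i = 1 ∧ 1 ≤ j
  | .u j => if i % 2 = 0 then i ≤ 2 * j else (i = 1 ∨ i = 2 * j + 3)
  | _ => False

theorem rv_mono : MonoV Wd.le rv := by
  intro n a b h h'
  cases a <;> cases b <;> simp only [Wd.le, rv] at * <;> split_ifs at * <;> omega

theorem refute_Th (n : ℕ) (j : ℕ) : ∀ k, k + j = n →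
    ¬ Sat Wd.le (Wd.S n) (fun _ _ => False) rv (Th j k) (.x (k + 1)) := by
  induction j with
  | zero =>
    intro k hk h
    refine h (.x (k + 1)) (Wd.le_refl _) ?_
    intro y hy y' hyy' hs
    cases y <;> cases y' <;> simp only [Wd.le, Wd.S, fa, Sat, rv] at * <;>
      simp only [Nat.mul_mod_right, if_true] at hs <;> omega
  | succ j ih =>
    intro k hk h
    have h₁ := h (.x (k + 1)) (Wd.le_refl _) (by
      intro y hy y' hyy' hs
      cases y <;> cases y' <;> simp only [Wd.le, Wd.S, fa, fb, Sat, rv] at * <;>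
        split_ifs at * <;> omega)
    rcases h₁ with h₁ | h₁
    · refine ih (k + 1) (by omega) ?_
      exact persist (fr_comb n) rv_mono _ (.x (k + 1)) (.x (k + 1 + 1))
        (by simp only [Wd.le]; omega) h₁
    · refine h₁ (.m k) (by simp only [Wd.le]; omega) ?_
      intro y hy y' hyy' hs
      cases y <;> cases y' <;> simp only [Wd.le, Wd.S, fb, Sat, rv] at * <;>
        split_ifs at * <;> omega

theorem refute_psi (n : ℕ) : ¬ Val Wd.le (Wd.S n) (fun _ _ => False) (psi n) := by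
  intro h
  have h₁ := h rv rv_mono (.x 0) (.x 0) (Wd.le_refl _) (by
    intro y hy
    left
    cases y <;> simp only [Wd.S, fa, Sat, rv] at * <;> split_ifs at * <;> omega)
  have h₂ := h₁ (.x 0) (Wd.le_refl _) (by
    intro w hw hT y hy
    by_cases hw0 : w = .x 0
    · subst hw0
      exfalso
      refine refute_Th n n 0 (by omega) ?_
      exact persist (fr_comb n) rv_mono _ (.x 0) (.x (0 + 1))
        (by simp only [Wd.le]; omega) hT
    · cases w with
      | x i =>
        have hi : i ≠ 0 := by rintro rfl; exact hw0 rfl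
        cases y with
        | x j => exact hy.elim
        | m j => exact hy.elim
        | z j =>
          simp only [Wd.S] at hy
          exact ⟨rfl, by omega⟩
        | u j =>
          exact Or.inl rfl
      | m i =>
        cases y with
        | x j => exact hy.elim
        | m j => exact hy.elim
        | z j =>
          simp only [Wd.S] at hy
          exact ⟨rfl, by omega⟩
        | u j =>
          exact Or.inl rfl
      | z i => exact hw.elim
      | u i => exact hw.elim)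
  have h₃ := h₂ (.z 0) (by simp only [Wd.S]; omega)
  simp only [fq, Sat, rv] at h₃
  split_ifs at h₃ <;> omega

/-! ### Deleting a world -/

/-- Subformulas. -/
def subf : Form → Finset Form
  | .var n => {.var n}
  | .bot => {.bot}
  | .and φ ψ => insert (.and φ ψ) (subf φ ∪ subf ψ)
  | .or φ ψ => insert (.or φ ψ) (subf φ ∪ subf ψ)
  | .imp φ ψ => insert (.imp φ ψ) (subf φ ∪ subf ψ)
  | .box φ => insert (.box φ) (subf φ)
  | .dia φ => insert (.dia φ) (subf φ)

theorem self_mem_subf (φ : Form) : φ ∈ subf φ := by cases φ <;> simp [subf]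

open Classical in
theorem exists_stable {n : ℕ} {V : ℕ → Wd → Prop} (hV : MonoV Wd.le V) (T : Finset Form) :
    ∃ k ≤ T.card, ∀ ψ ∈ T, Sat Wd.le (Wd.S n) (fun _ _ => False) V ψ (.x (k + 1)) →
      Sat Wd.le (Wd.S n) (fun _ _ => False) V ψ (.x k) := by
  by_contra hc
  push Not at hc
  let f : ℕ → Finset Form := fun k =>
    T.filter fun ψ => Sat Wd.le (Wd.S n) (fun _ _ => False) V ψ (.x k)
  have hf : ∀ k ≤ T.card, f k ⊂ f (k + 1) := by
    intro k hk
    obtain ⟨ψ, hψ, h₁, h₂⟩ := hc k hk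
    rw [Finset.ssubset_iff_of_subset]
    · exact ⟨ψ, by simp [f, hψ, h₁], by simp [f, h₂]⟩
    · intro χ hχ
      simp only [f, Finset.mem_filter] at hχ ⊢
      exact ⟨hχ.1, persist (fr_comb n) hV χ _ _ (by simp only [Wd.le]; omega) hχ.2⟩
  have hcard : ∀ k ≤ T.card + 1, k ≤ (f k).card := by
    intro k
    induction k with
    | zero => intro _; omega
    | succ k ih =>
      intro hk
      have h₁ := Finset.card_lt_card (hf k (by omega))
      have h₂ := ih (by omega)
      omega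
  have h₁ := hcard (T.card + 1) le_rfl
  have h₂ : (f (T.card + 1)).card ≤ T.card := Finset.card_filter_le _ _
  omega

/-- The frame with `x (k+1)` deleted. -/
def Wk (k : ℕ) : Type := {w : Wd // w ≠ .x (k + 1)}

theorem fr_del {n k : ℕ} (hk : k < n) :
    Fr₂ (W := Wk k) (fun a b => a.1.le b.1) (fun a b => Wd.S n a.1 b.1)
      (fun a b => Wd.R n k a.1 b.1) where
  refl w := Wd.le_refl _
  trans a b c := Wd.le_trans _ _ _
  anti a b y := Wd.anti n _ _ _
  sub := by
    rintro ⟨w, hw⟩ ⟨y, hy⟩ h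
    cases w <;> cases y <;> simp only [Wd.S, Wd.R] at * <;> omega
  forth := by
    rintro ⟨w, hw⟩ ⟨w', hw'⟩ ⟨y, hy⟩ h h'
    cases w with
    | x i =>
      cases y with
      | x j => exact h'.elim
      | m j => exact h'.elim
      | z j =>
        cases w' with
        | x i' =>
          have hne : i' ≠ k + 1 := fun e => hw' (by rw [e])
          simp only [Wd.le, Wd.R] at h h'
          by_cases h₁ : i' ≤ j
          · exact ⟨⟨.z j, by simp⟩, by simp only [Wd.le]; omega, by simp only [Wd.R]; omega⟩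
          · by_cases h₂ : i' = j + 1
            · exact ⟨⟨.z (j + 1), by simp⟩, by simp only [Wd.le]; omega,
                by simp only [Wd.R]; omega⟩
            · exact ⟨⟨.u j, by simp⟩, by simp only [Wd.le]; omega,
                by simp only [Wd.R]; omega⟩
        | m l =>
          simp only [Wd.le, Wd.R] at h h'
          by_cases h₁ : l + 1 ≤ j
          · exact ⟨⟨.z j, by simp⟩, by simp only [Wd.le]; omega, by simp only [Wd.R]; omega⟩
          · by_cases h₂ : l = j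
            · exact ⟨⟨.z (j + 1), by simp⟩, by simp only [Wd.le]; omega,
                by simp only [Wd.R]; omega⟩
            · exact ⟨⟨.u j, by simp⟩, by simp only [Wd.le]; omega,
                by simp only [Wd.R]; omega⟩
        | z l => exact h.elim
        | u l => exact h.elim
      | u j =>
        refine ⟨⟨.u j, by simp⟩, Wd.le_refl _, ?_⟩
        cases w' <;> simp only [Wd.le, Wd.R] at * <;> omega
    | m i =>
      refine ⟨⟨y, hy⟩, Wd.le_refl _, ?_⟩
      cases w' <;> cases y <;> simp only [Wd.le, Wd.R] at * <;> omega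
    | z i => cases y <;> exact h'.elim
    | u i => cases y <;> exact h'.elim
  wit := by
    rintro ⟨w, hw⟩ ⟨y, hy⟩ h
    cases w with
    | x i =>
      cases y with
      | x j => exact h.elim
      | m j => exact h.elim
      | z j =>
        simp only [Wd.S] at h
        by_cases hj : j = 0
        · subst hj
          exact ⟨⟨.x i, hw⟩, ⟨.z 0, by simp⟩, Wd.le_refl _, Wd.le_refl _,
            by simp only [Wd.R]; omega⟩
        · exact ⟨⟨.m (j - 1), by simp⟩, ⟨.z j, by simp⟩, by simp only [Wd.le]; omega,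
            Wd.le_refl _, by simp only [Wd.R]; omega⟩
      | u j =>
        simp only [Wd.S] at h
        exact ⟨⟨.x (i + j + k + 3), by simp only [ne_eq, Wd.x.injEq]; omega⟩, ⟨.u j, by simp⟩,
          by simp only [Wd.le]; omega, Wd.le_refl _, by simp only [Wd.R]; omega⟩
    | m i => exact ⟨⟨.m i, hw⟩, ⟨y, hy⟩, Wd.le_refl _, Wd.le_refl _, by
        cases y <;> simp only [Wd.S, Wd.R] at * <;> omega⟩
    | z i => cases y <;> exact h.elim
    | u i => cases y <;> exact h.elim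

theorem sat_del {n k : ℕ} {V : ℕ → Wd → Prop} (hV : MonoV Wd.le V) {T : Finset Form}
    (hT : ∀ ψ ∈ T, Sat Wd.le (Wd.S n) (fun _ _ => False) V ψ (.x (k + 1)) →
      Sat Wd.le (Wd.S n) (fun _ _ => False) V ψ (.x k)) (φ : Form) :
    φ.DiaFree → subf φ ⊆ T → ∀ w : Wk k,
      (Sat (W := Wk k) (fun a b => a.1.le b.1) (fun a b => Wd.S n a.1 b.1)
        (fun a b => Wd.R n k a.1 b.1) (fun i w => V i w.1) φ w ↔
        Sat Wd.le (Wd.S n) (fun _ _ => False) V φ w.1) := by
  induction φ with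
  | var i => intro _ _ w; rfl
  | bot => intro _ _ w; rfl
  | and φ ψ ih₁ ih₂ =>
    intro hd hs w
    have h₁ : subf φ ⊆ T := fun _ h => hs (by simp [subf, h])
    have h₂ : subf ψ ⊆ T := fun _ h => hs (by simp [subf, h])
    exact and_congr (ih₁ hd.1 h₁ w) (ih₂ hd.2 h₂ w)
  | or φ ψ ih₁ ih₂ =>
    intro hd hs w
    have h₁ : subf φ ⊆ T := fun _ h => hs (by simp [subf, h])
    have h₂ : subf ψ ⊆ T := fun _ h => hs (by simp [subf, h])
    exact or_congr (ih₁ hd.1 h₁ w) (ih₂ hd.2 h₂ w)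
  | imp φ ψ ih₁ ih₂ =>
    intro hd hs w
    have h₁ : subf φ ⊆ T := fun _ h => hs (by simp [subf, h])
    have h₂ : subf ψ ⊆ T := fun _ h => hs (by simp [subf, h])
    constructor
    · intro h v hv hφ
      by_cases hvk : v = .x (k + 1)
      · subst hvk
        have hle : w.1.le (.x k) := by
          obtain ⟨w, hw⟩ := w
          cases w with
          | x i =>
            have : i ≠ k + 1 := fun e => hw (by rw [e])
            simp only [Wd.le] at hv ⊢
            omega
          | m i => exact hv.elim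
          | z i => exact hv.elim
          | u i => exact hv.elim
        have hφ' := hT φ (h₁ (self_mem_subf φ)) hφ
        have hψ := (ih₂ hd.2 h₂ ⟨.x k, by simp⟩).1
          (h ⟨.x k, by simp⟩ hle ((ih₁ hd.1 h₁ ⟨.x k, by simp⟩).2 hφ'))
        exact persist (fr_comb n) hV ψ _ _ (by simp only [Wd.le]; omega) hψ
      · exact (ih₂ hd.2 h₂ ⟨v, hvk⟩).1 (h ⟨v, hvk⟩ hv ((ih₁ hd.1 h₁ ⟨v, hvk⟩).2 hφ))
    · intro h v hv hφ
      exact (ih₂ hd.2 h₂ v).2 (h v.1 hv ((ih₁ hd.1 h₁ v).1 hφ))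
  | box φ ih =>
    intro hd hs w
    have h₁ : subf φ ⊆ T := fun _ h => hs (by simp [subf, h])
    constructor
    · intro h y hy
      have hne : y ≠ .x (k + 1) := by
        rintro rfl
        obtain ⟨w, hw⟩ := w
        cases w <;> exact hy.elim
      exact (ih hd h₁ ⟨y, hne⟩).1 (h ⟨y, hne⟩ hy)
    · intro h y hy
      exact (ih hd h₁ y).2 (h y.1 hy)
  | dia φ _ => intro hd; exact hd.elim

theorem valid_comb {φ : Form} (hd : φ.DiaFree) (h : φ ∈ L₂) {n : ℕ} (hn : (subf φ).card < n) :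
    Val Wd.le (Wd.S n) (fun _ _ => False) φ := by
  intro V hV w
  obtain ⟨k, hk, hT⟩ := exists_stable (n := n) hV (subf φ)
  have key : ∀ w : Wk k, Sat Wd.le (Wd.S n) (fun _ _ => False) V φ w.1 := by
    intro w
    refine (sat_del hV hT φ hd (Finset.Subset.refl _) w).1 ?_
    exact sound₂ (fr_del (n := n) (k := k) (by omega)) h _
      (fun i a b hab h' => hV i _ _ hab h') w
  by_cases hw : w = .x (k + 1)
  · subst hw
    exact persist (fr_comb n) hV φ (.x k) _ (by simp only [Wd.le]; omega) (key ⟨.x k, by simp⟩)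
  · exact key ⟨w, hw⟩

theorem not_finAx_L₂ : ¬ FinAx (frag L₂) := by
  rintro ⟨X, hX, hF⟩
  have hmem : ∀ χ ∈ X, χ ∈ L₂ := by
    intro χ hχ
    have : χ ∈ frag L₂ := by
      rw [hF]; exact ⟨hX χ hχ, .ax (by exact_mod_cast hχ)⟩
    exact this.2
  let n : ℕ := X.sup (fun χ => (subf χ).card) + 1
  have hval : ∀ χ ∈ (X : Set Form), Val Wd.le (Wd.S n) (fun _ _ => False) χ := by
    intro χ hχ
    have hχ' : χ ∈ X := by exact_mod_cast hχ
    refine valid_comb (hX χ hχ') (hmem χ hχ') ?_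
    have : (subf χ).card ≤ X.sup (fun χ => (subf χ).card) :=
      Finset.le_sup (f := fun χ => (subf χ).card) hχ'
    exact Nat.lt_succ_of_le this
  have hpsi : psi n ∈ frag L₂ := ⟨psi_diaFree n, psi_mem n⟩
  rw [hF] at hpsi
  exact refute_psi n (sound (fr_comb n) hval hpsi.2)

theorem not_subset : ¬ frag L₂ ⊆ frag L₁ := by
  intro h
  apply not_finAx_L₂
  have : frag L₂ = frag L₁ := by
    refine Set.Subset.antisymm h ?_
    rintro φ ⟨hd, hφ⟩
    refine ⟨hd, Der.mono ?_ hφ⟩
    intro χ hχ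
    rcases hχ with rfl | rfl | rfl <;> simp
  rw [this]
  exact finAx_L₁

end Pool.Agent.Q297.CKF
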